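import Mathlib
import Pool.Agent.Helper53.BaseResDefs
import Pool.Agent.Helper80.BR.Final

/-!
# Powers of the reals and base resolvability
-/

namespace Pool.Agent.Results.MP_155eb7_gt.PowersOfTheReals

open Cardinal TopologicalSpace Pool.Agent.Helper53.BaseRes

universe u

/-- **Full (negative) answer to Q1.**  If `κ` has cardinality `ℵ₁`, then `ℝ^κ` (which has no
isolated points) has a base which cannot be partitioned into two bases.  (For nonempty countable
`κ` the space `ℝ^κ`, in particular the real line, is base resolvable; this part is known.) -/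
theorem result :
    (∀ κ : Type u, #κ = ℵ₁ → NoIsolated (κ → ℝ) ∧
      ∃ 𝓑 : Set (Set (κ → ℝ)), IsTopologicalBasis 𝓑 ∧ ¬ ResolvableBase 𝓑) ∧
    (∀ κ : Type u, Nonempty κ → Countable κ → BaseResolvable (κ → ℝ)) ∧
    BaseResolvable ℝ := by
  refine ⟨fun κ hκ => ⟨?_, Pool.Agent.Helper80.BR.exists_base_pi κ hκ⟩, fun κ _ _ =>
    Pool.Agent.Helper80.BR.baseResolvable_countable κ, ?_⟩
  · have : Nonempty κ := by
      rw [← Cardinal.mk_ne_zero_iff, hκ]
      exact (Cardinal.aleph_pos 1).ne'
    exact Pool.Agent.Helper80.BR.noIsolated_pi κ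
  · exact Pool.Agent.Helper80.BR.baseResolvable_real

end Pool.Agent.Results.MP_155eb7_gt.PowersOfTheReals
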