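import Mathlib
import Pool.Agent.Helper53.BaseResDefs
import Pool.Agent.Helper53.BaseResProof
import Pool.Agent.Helper53.BaseResSum

/-!
# Base resolvability is not preserved by products
-/

namespace Pool.Agent.Results.MP_155eb7_gt.ProductCounterexample

open TopologicalSpace Pool.Agent.Helper53.BaseRes

/-- **Full (negative) answer to Q2.**  There are a compact Hausdorff space `X` and a metrizable
space `Y`, both base resolvable, such that `X × Y` (which has no isolated points) has a base which
cannot be partitioned into two bases.  The sum `X ⊕ Y` is a base resolvable space whose square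
(which has no isolated points) has a base which cannot be partitioned into two bases. -/
theorem result :
    ∃ (X Y : Type) (_ : TopologicalSpace X) (_ : TopologicalSpace Y),
      CompactSpace X ∧ T2Space X ∧ MetrizableSpace Y ∧
      BaseResolvable X ∧ BaseResolvable Y ∧
      (NoIsolated (X × Y) ∧
        ∃ 𝓑 : Set (Set (X × Y)), IsTopologicalBasis 𝓑 ∧ ¬ ResolvableBase 𝓑) ∧
      BaseResolvable (X ⊕ Y) ∧
      (NoIsolated ((X ⊕ Y) × (X ⊕ Y)) ∧
        ∃ 𝓑 : Set (Set ((X ⊕ Y) × (X ⊕ Y))), IsTopologicalBasis 𝓑 ∧ ¬ ResolvableBase 𝓑) := by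
  have h : ∃ 𝓑 : Set (Set (XX × YY)), IsTopologicalBasis 𝓑 ∧ ¬ ResolvableBase 𝓑 :=
    ⟨BB, isTopologicalBasis_BB, not_resolvable_BB⟩
  exact ⟨XX, YY, inferInstance, inferInstance, inferInstance, inferInstance, inferInstance,
    baseResolvable_XX, baseResolvable_YY, ⟨noIsolated_prod baseResolvable_XX.1, h⟩,
    baseResolvable_XX.sum baseResolvable_YY,
    ⟨noIsolated_prod (baseResolvable_XX.sum baseResolvable_YY).1, exists_not_resolvable_square h⟩⟩

end Pool.Agent.Results.MP_155eb7_gt.ProductCounterexample
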